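import Mathlib
import Pool.Agent.R15.Mad.Cnt

set_option autoImplicit false

/-!
# Mader-perfect digraphs of order `k` have `O(k log k)` arcs

Every digraph `F` with `k` vertices and `m ≥ C k log k` arcs has Mader number at least
`c m / log m`: a random digraph `D` on `n = m / 8` vertices (each arc present with probability 1/2)
has no acyclic set of more than `2 log n + 4` vertices, and for every injection of `V(F)` into
`V(D)` more than `n` arcs of `F` are missing in `D`, each of which would need its own subdividing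
vertex. So a Mader-perfect digraph of order `k` has `O(k log k)` arcs.
-/

namespace Pool.Agent.Results.MP_ab2d80_co.MaderPerfectKLogK

/-- `D` contains a subdivision of the subdigraph of `F` induced on `S`: an injective placement `φ` of
the branch vertices, and for every arc `u v` of `F[S]` a path `p u v 0, …, p u v (ℓ u v)` in `D` from
`φ u` to `φ v`, with inner vertices avoiding the branch vertices and all distinct. -/
def ContainsSubdivision {k n : ℕ} (F : Digraph (Fin k)) (S : Finset (Fin k))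
    (D : Digraph (Fin n)) : Prop :=
  ∃ φ : Fin k → Fin n, ∃ ℓ : Fin k → Fin k → ℕ, ∃ p : Fin k → Fin k → ℕ → Fin n,
    (∀ a ∈ S, ∀ b ∈ S, φ a = φ b → a = b) ∧
    (∀ u ∈ S, ∀ v ∈ S, F.Adj u v →
      1 ≤ ℓ u v ∧ p u v 0 = φ u ∧ p u v (ℓ u v) = φ v ∧
      (∀ i, i < ℓ u v → D.Adj (p u v i) (p u v (i + 1))) ∧
      (∀ i, 0 < i → i < ℓ u v → ∀ w ∈ S, p u v i ≠ φ w) ∧
      (∀ u' ∈ S, ∀ v' ∈ S, F.Adj u' v' → ∀ i j, 0 < i → i < ℓ u v → 0 < j →
        j < ℓ u' v' → p u v i = p u' v' j → u = u' ∧ v = v' ∧ i = j))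

/-- `D` has dichromatic number at most `t`: a colouring with `t` colours each of whose classes is
acyclic (there is a function that increases along the arcs inside the classes). -/
def Colourable {n : ℕ} (D : Digraph (Fin n)) (t : ℕ) : Prop :=
  ∃ c : Fin n → Fin t, ∃ f : Fin n → ℕ, ∀ u v, D.Adj u v → c u = c v → f u < f v

/-- `F` is Mader-perfect: for each vertex subset `S`, every loopless digraph of dichromatic number at
least `|S|` contains a subdivision of `F[S]`. -/
def MaderPerfect {k : ℕ} (F : Digraph (Fin k)) : Prop :=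
  ∀ S : Finset (Fin k), ∀ n : ℕ, ∀ D : Digraph (Fin n), (∀ v, ¬ D.Adj v v) →
    ¬ Colourable D (S.card - 1) → ContainsSubdivision F S D

/-- the number of arcs -/
noncomputable def arcs {k : ℕ} (F : Digraph (Fin k)) : ℕ := {q : Fin k × Fin k | F.Adj q.1 q.2}.ncard

/-- the digraph with the arcs given by `x`, without loops -/
def mk {n : ℕ} (x : Fin n × Fin n → Bool) : Digraph (Fin n) where
  Adj u v := u ≠ v ∧ x (u, v) = true

theorem not_contains {k n : ℕ} (F : Digraph (Fin k))
    (A : Finset (Fin k × Fin k)) (hA : ∀ e, e ∈ A ↔ F.Adj e.1 e.2) (x : Fin n × Fin n → Bool)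
    (hx : ∀ φ : Fin k → Fin n, Function.Injective φ →
        n < (A.filter (fun e => x (φ e.1, φ e.2) = false)).card) :
    ¬ ContainsSubdivision F Finset.univ (mk x) := by
  rintro ⟨φ, ℓ, p, h1, h2⟩
  have hφ : Function.Injective φ := fun a b hab => h1 a (Finset.mem_univ _) b (Finset.mem_univ _) hab
  have hlt := hx φ hφ
  have key : ∀ e ∈ A.filter (fun e => x (φ e.1, φ e.2) = false), F.Adj e.1 e.2 ∧ 1 < ℓ e.1 e.2 := by
    intro e he
    rw [Finset.mem_filter, hA] at he
    obtain ⟨he1, he2⟩ := he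
    refine ⟨he1, ?_⟩
    obtain ⟨k1, k2, k3, k4, _⟩ := h2 e.1 (Finset.mem_univ _) e.2 (Finset.mem_univ _) he1
    rcases Nat.lt_or_ge 1 (ℓ e.1 e.2) with h | h
    · exact h
    · exfalso
      have hl : ℓ e.1 e.2 = 1 := le_antisymm h k1
      have h3 := k4 0 (by omega)
      rw [k2, zero_add, ← hl, k3] at h3
      have h4 : x (φ e.1, φ e.2) = true := h3.2
      rw [he2] at h4
      exact Bool.false_ne_true h4
  have hinj : Set.InjOn (fun e : Fin k × Fin k => p e.1 e.2 1)
      (A.filter (fun e => x (φ e.1, φ e.2) = false)) := by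
    intro e he e' he' h
    obtain ⟨a1, a2⟩ := key e he
    obtain ⟨b1, b2⟩ := key e' he'
    obtain ⟨_, _, _, _, _, k6⟩ := h2 e.1 (Finset.mem_univ _) e.2 (Finset.mem_univ _) a1
    have := k6 e'.1 (Finset.mem_univ _) e'.2 (Finset.mem_univ _) b1 1 1 one_pos a2 one_pos b2 h
    exact Prod.ext this.1 this.2.1
  have hle := Finset.card_le_card_of_injOn (fun e : Fin k × Fin k => p e.1 e.2 1)
    (s := A.filter (fun e => x (φ e.1, φ e.2) = false)) (t := Finset.univ)
    (fun e _ => Finset.mem_univ _) hinj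
  rw [Finset.card_univ, Fintype.card_fin] at hle
  omega

theorem not_colourable {n s t : ℕ} (x : Fin n × Fin n → Bool)
    (hx : ∀ σ : Fin s → Fin n, Function.Injective σ → ∃ i j, j < i ∧ x (σ i, σ j) = true)
    (hn : t * (s - 1) < n) (hs : 0 < s) : ¬ Colourable (mk x) t := by
  classical
  rintro ⟨c, f, hf⟩
  obtain ⟨q, _, hq⟩ := Finset.exists_lt_card_fiber_of_mul_lt_card_of_maps_to
    (s := (Finset.univ : Finset (Fin n))) (t := (Finset.univ : Finset (Fin t))) (f := c)
    (n := s - 1) (fun _ _ => Finset.mem_univ _) (by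
      rw [Finset.card_univ, Finset.card_univ, Fintype.card_fin, Fintype.card_fin]; exact hn)
  obtain ⟨K, hK, hKc⟩ := Finset.exists_subset_card_eq (s := Finset.univ.filter (fun a => c a = q))
    (n := s) (by omega)
  let e : Fin s ≃ K := (Fintype.equivFinOfCardEq (by rw [Fintype.card_coe, hKc])).symm
  let g : Fin s → ℕ := fun i => f (e i)
  let σ : Fin s → Fin n := fun i => (e (Tuple.sort g i) : Fin n)
  have hσ : Function.Injective σ := by
    intro i j hij
    exact (Tuple.sort g).injective (e.injective (Subtype.ext hij))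
  obtain ⟨i, j, hij, hxx⟩ := hx σ hσ
  have hmono : g (Tuple.sort g j) ≤ g (Tuple.sort g i) := Tuple.monotone_sort g hij.le
  have hc : ∀ i, c (σ i) = q := by
    intro i
    have := hK (e (Tuple.sort g i)).2
    rw [Finset.mem_filter] at this
    exact this.2
  have hadj : (mk x).Adj (σ i) (σ j) := ⟨fun h => hij.ne' (hσ h), hxx⟩
  have := hf _ _ hadj ((hc i).trans (hc j).symm)
  have h3 : f (σ i) = g (Tuple.sort g i) := rfl
  have h4 : f (σ j) = g (Tuple.sort g j) := rfl
  omega

theorem log_sq {k m : ℕ} (hm : m ≤ k * k) : Nat.log 2 m ≤ 2 * Nat.log 2 k + 1 := by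
  rcases Nat.eq_zero_or_pos m with h0 | h0
  · rw [h0]; simp
  · have h1 : k < 2 ^ (Nat.log 2 k + 1) := Nat.lt_pow_succ_log_self (by norm_num) k
    have h2 : m < 2 ^ (2 * Nat.log 2 k + 2) := by
      calc m ≤ k * k := hm
        _ < 2 ^ (Nat.log 2 k + 1) * 2 ^ (Nat.log 2 k + 1) := Nat.mul_lt_mul'' h1 h1
        _ = 2 ^ (2 * Nat.log 2 k + 2) := by rw [← pow_add]; congr 1; ring
    have := Nat.log_lt_of_lt_pow (by omega) h2
    omega

/-- A digraph `F` with `k ≥ 2` vertices and `m ≥ 100 k log₂ k` arcs has Mader number more than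
`m / (100 log₂ m)`. -/
theorem main {k : ℕ} (F : Digraph (Fin k)) (hk : 2 ≤ k)
    (hm : 100 * k * Nat.log 2 k ≤ arcs F) :
    ∃ n : ℕ, ∃ D : Digraph (Fin n), (∀ v, ¬ D.Adj v v) ∧
      ¬ ContainsSubdivision F Finset.univ D ∧
      ∀ t : ℕ, 100 * t * Nat.log 2 (arcs F) ≤ arcs F → ¬ Colourable D t := by
  classical
  set A : Finset (Fin k × Fin k) := Finset.univ.filter (fun e => F.Adj e.1 e.2) with hA
  have hAm : ∀ e, e ∈ A ↔ F.Adj e.1 e.2 := by intro e; rw [hA]; simp
  have hcard : A.card = arcs F := by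
    unfold arcs
    rw [← Set.ncard_coe_finset]
    congr 1
    ext e
    simp [hA]
  set m := arcs F with hmdef
  have hmk : m ≤ k * k := by
    rw [← hcard]
    calc A.card ≤ (Finset.univ : Finset (Fin k × Fin k)).card := Finset.card_le_univ _
      _ = k * k := by simp
  have hlk : 1 ≤ Nat.log 2 k := Nat.log_pos (by norm_num) hk
  set n := m / 8 with hn
  have h8 : 8 * n ≤ A.card := by rw [hcard]; omega
  set lk := Nat.log 2 k with hlkdef
  have hln : Nat.log 2 n ≤ Nat.log 2 m := Nat.log_mono_right (by omega)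
  have hlm : Nat.log 2 m ≤ 2 * lk + 1 := log_sq hmk
  set L := Nat.log 2 n + 1 with hL
  have hnL : n < 2 ^ L := Nat.lt_pow_succ_log_self (by norm_num) n
  have hkl : 2 ≤ k * lk := by nlinarith
  have hm2 : 100 * (k * lk) ≤ m := by rw [← mul_assoc]; exact hm
  have hLk : L * k ≤ 4 * (k * lk) := by
    have : L ≤ 4 * lk := by omega
    calc L * k ≤ 4 * lk * k := Nat.mul_le_mul_right _ this
      _ = 4 * (k * lk) := by ring
  have e1 : n ^ k * 4 ≤ 2 ^ (3 * n) := by
    calc n ^ k * 4 ≤ (2 ^ L) ^ k * 2 ^ 2 :=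
          Nat.mul_le_mul (Nat.pow_le_pow_left hnL.le _) (by norm_num)
      _ = 2 ^ (L * k + 2) := by rw [← pow_mul, ← pow_add]
      _ ≤ 2 ^ (3 * n) := by
          apply Nat.pow_le_pow_right (by norm_num)
          omega
  have e2 : n ^ (2 * L + 3) * 4 ≤ 2 ^ ((2 * L + 3).choose 2) := by
    have hc : (2 * L + 3).choose 2 = (2 * L + 3) * (L + 1) := by
      rw [Nat.choose_two_right, show 2 * L + 3 - 1 = 2 * (L + 1) by omega, ← mul_assoc,
        mul_comm (2 * L + 3) 2, mul_assoc, Nat.mul_div_cancel_left _ (by norm_num)]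
    calc n ^ (2 * L + 3) * 4 ≤ (2 ^ L) ^ (2 * L + 3) * 2 ^ 2 :=
          Nat.mul_le_mul (Nat.pow_le_pow_left hnL.le _) (by norm_num)
      _ = 2 ^ (L * (2 * L + 3) + 2) := by rw [← pow_mul, ← pow_add]
      _ ≤ _ := by
          apply Nat.pow_le_pow_right (by norm_num)
          rw [hc]
          nlinarith
  obtain ⟨x, hx1, hx2⟩ := Pool.Agent.R15.Mad.exists_good A h8 e1 e2
  refine ⟨n, mk x, fun v h => h.1 rfl, not_contains F A hAm x hx1, ?_⟩
  intro t ht
  apply not_colourable x hx2 _ (by omega)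
  have h1 : 1 ≤ Nat.log 2 m := Nat.log_pos (by norm_num) (by omega)
  have h2 : t * (2 * L + 3 - 1) ≤ 6 * (t * Nat.log 2 m) := by
    have : 2 * L + 3 - 1 ≤ 6 * Nat.log 2 m := by omega
    calc t * (2 * L + 3 - 1) ≤ t * (6 * Nat.log 2 m) := Nat.mul_le_mul_left _ this
      _ = 6 * (t * Nat.log 2 m) := by ring
  have h3 : 100 * (t * Nat.log 2 m) ≤ m := by rw [← mul_assoc]; exact ht
  omega

/-- Every Mader-perfect digraph of order `k` has at most `C k log₂ k` arcs, for an absolute
constant `C`. -/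
theorem result :
    ∃ C : ℕ, ∀ k : ℕ, ∀ F : Digraph (Fin k), (∀ v, ¬ F.Adj v v) → MaderPerfect F →
      arcs F ≤ C * k * Nat.log 2 k := by
  refine ⟨300, ?_⟩
  intro k F hF hP
  by_contra hcon
  push Not at hcon
  have hsq : arcs F ≤ k * k := by
    unfold arcs
    calc _ ≤ (Set.univ : Set (Fin k × Fin k)).ncard := Set.ncard_le_ncard (Set.subset_univ _)
      _ = k * k := by rw [Set.ncard_univ, Nat.card_eq_fintype_card]; simp
  have hk : 2 ≤ k := by
    by_contra hk
    have h0 : arcs F = 0 := by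
      unfold arcs
      rw [Set.ncard_eq_zero (Set.toFinite _)]
      ext q
      simp only [Set.mem_ofPred_eq, Set.mem_empty_iff_false, iff_false]
      intro h
      have : q.1 = q.2 := by
        apply Fin.ext
        have h1 := q.1.2
        have h2 := q.2.2
        omega
      exact hF q.1 (this ▸ h)
    omega
  have hlk : 1 ≤ Nat.log 2 k := Nat.log_pos (by norm_num) hk
  obtain ⟨n, D, hD, hno, hcol⟩ := main F hk (by
    have : 100 * k * Nat.log 2 k ≤ 300 * k * Nat.log 2 k := by
      apply Nat.mul_le_mul_right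
      omega
    omega)
  apply hno
  apply hP Finset.univ n D hD
  rw [Finset.card_univ, Fintype.card_fin]
  apply hcol
  have hlm := log_sq hsq
  have h1 : (k - 1) * Nat.log 2 (arcs F) ≤ 3 * (k * Nat.log 2 k) := by
    calc (k - 1) * Nat.log 2 (arcs F) ≤ k * (3 * Nat.log 2 k) :=
          Nat.mul_le_mul (by omega) (by omega)
      _ = 3 * (k * Nat.log 2 k) := by ring
  have h2 : 300 * (k * Nat.log 2 k) < arcs F := by rw [← mul_assoc]; exact hcon
  calc 100 * (k - 1) * Nat.log 2 (arcs F) = 100 * ((k - 1) * Nat.log 2 (arcs F)) := by ring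
    _ ≤ 100 * (3 * (k * Nat.log 2 k)) := Nat.mul_le_mul_left _ h1
    _ ≤ arcs F := by omega

end Pool.Agent.Results.MP_ab2d80_co.MaderPerfectKLogK
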